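import Mathlib
import Pool.Agent.Helper736_LP.MultH
import Pool.Agent.Helper736_CG.Ev
import Pool.Agent.helper391_DG.Ana

set_option autoImplicit false
set_option maxHeartbeats 1000000

/-! Simultaneous large least primes in the classes `± α b` modulo `m`. -/

namespace Pool.Agent.Helper736_LP

open Filter Finset Pool.Agent.Helper736_CG

theorem ev_exp (t : ℝ) : ∀ᶠ L : ℝ in atTop, L ^ 2 * Real.exp (t * L) ≤ Real.exp (L ^ (1 + 1)) := by
  filter_upwards [eventually_ge_atTop (1 : ℝ), eventually_ge_atTop (2 + t)] with L h1 h2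
  have h3 : L ^ 2 ≤ Real.exp (2 * L) := by
    have h4 : L ≤ Real.exp L := by
      have := Real.add_one_le_exp L
      linarith
    calc L ^ 2 ≤ (Real.exp L) ^ 2 := by gcongr
      _ = Real.exp (2 * L) := by rw [← Real.exp_nat_mul]; norm_num
  calc L ^ 2 * Real.exp (t * L) ≤ Real.exp (2 * L) * Real.exp (t * L) := by gcongr
    _ = Real.exp ((2 + t) * L) := by rw [← Real.exp_add]; ring_nf
    _ ≤ Real.exp (L ^ (1 + 1)) := by
        apply Real.exp_le_exp.2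
        have : L ^ (1 + 1) = L * L := by ring
        rw [this]
        exact mul_le_mul_of_nonneg_right h2 (by linarith)

theorem main (δ : ℝ) (hδ : 0 < δ) (hδ1 : δ ≤ 1) : ∃ c : ℝ, 0 < c ∧ ∃ Q₀ : ℝ, ∀ Q : ℝ, Q₀ ≤ Q →
    ∀ (𝒜 : Finset (ℕ × ℕ)) (J : ℕ × ℕ → ℝ),
    (∀ q ∈ 𝒜, 1 ≤ q.1 ∧ (q.1 : ℝ) ≤ Q ^ (δ / 4) ∧ 2 ≤ q.2 ∧ (q.2 : ℝ) ≤ Q ∧
      (∀ p : ℕ, p.Prime → p ∣ q.2 → Q ^ δ ≤ p) ∧ Real.log Q ≤ J q) →
    ∑ q ∈ 𝒜, J q * ((q.1 : ℝ) / (Nat.totient q.1 : ℝ)) ≤ c * ff Q →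
    ∀ z : ℕ, (z : ℝ) ≤ Q ^ (δ / 2) → ∃ b : ℕ, z < b ∧ (b : ℝ) ≤ z + Q ^ (δ / 2) ∧
      ∀ q ∈ 𝒜, Nat.Coprime (q.1 * b) q.2 ∧ ∀ p : ℕ, p.Prime →
        ((q.2 : ℤ) ∣ (p : ℤ) - q.1 * b ∨ (q.2 : ℤ) ∣ (p : ℤ) + q.1 * b) → J q * q.2 < p := by
  obtain ⟨c₁, hc₁, X₁, h⟩ := multH 1
  obtain ⟨R, hR⟩ := Pool.Agent.helper391_DG.F_scale (δ / 2) (by positivity)
  have hXt : Tendsto (fun Q : ℝ => Q ^ (δ / 2)) atTop atTop := tendsto_rpow_atTop (by positivity)
  have hX4 : Tendsto (fun Q : ℝ => Q ^ (δ / 4)) atTop atTop := tendsto_rpow_atTop (by positivity)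
  have hlog := Real.tendsto_log_atTop
  obtain ⟨Q₀, hQ₀⟩ := eventually_atTop.1 ((((((hXt.eventually_ge_atTop X₁).and
    (hlog.eventually_ge_atTop R)).and (hXt.eventually (ev_bounds 0))).and
      ((hlog.comp hXt).eventually (ev_exp (2 / δ)))).and (hX4.eventually_gt_atTop 2)).and
        (eventually_ge_atTop (3 : ℝ)))
  refine ⟨c₁ * δ / 32, by positivity, Q₀, fun Q hQ 𝒜 J h𝒜 hsum z hz => ?_⟩
  obtain ⟨⟨⟨⟨⟨b1, b2⟩, b3⟩, b4⟩, b5⟩, b6⟩ := hQ₀ Q hQ
  obtain ⟨-, -, f1, f2, f3⟩ := b3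
  have hQ0 : 0 < Q := by linarith
  have hlQ : 1 ≤ Real.log Q := by
    rw [Real.le_log_iff_exp_le hQ0]
    exact Real.exp_one_lt_three.le.trans b6
  set X : ℝ := Q ^ (δ / 2) with hX
  have hX0 : 0 < X := by positivity
  have hlX : Real.log X = δ / 2 * Real.log Q := by rw [hX, Real.log_rpow hQ0]
  have hQX : Q = Real.exp (2 / δ * Real.log X) := by
    rw [hlX]
    have : 2 / δ * (δ / 2 * Real.log Q) = Real.log Q := by field_simp
    rw [this, Real.exp_log hQ0]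
  have hb4 : (Real.log X) ^ 2 * Q ≤ Real.exp ((Real.log X) ^ (1 + 1)) := by
    have := b4
    simp only [Function.comp] at this
    rw [← hX, ← hQX] at this
    exact this
  have hFX : Pool.Agent.H361R2.PA.FF 1 X = ff X := by
    unfold Pool.Agent.H361R2.PA.FF ff
    rw [pow_one]
  have hscale : δ / 16 * ff Q ≤ ff X := by
    obtain ⟨-, h2⟩ := hR (Real.log Q) b2 (Real.log X) (by rw [hlX]) (by
      rw [hlX]; nlinarith)
    have e1 : Pool.Agent.helper391_DG.F (Real.log Q) = ff Q := rfl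
    have e2 : Pool.Agent.helper391_DG.F (Real.log X) = ff X := rfl
    rw [e1, e2] at h2
    linarith
  have hXd : X * X = Q ^ δ := by
    rw [hX, ← Real.rpow_add hQ0]; congr 1; ring
  have hXd4 : Q ^ (δ / 4) * Q ^ (δ / 4) = X := by
    rw [hX, ← Real.rpow_add hQ0]; congr 1; ring
  have hlXX : Real.log X < X := by
    have := Real.log_le_sub_one_of_pos hX0
    linarith
  have hX1 : 1 ≤ X := by linarith
  set φ : ℕ × ℕ → ℕ × ℤ := fun q => (q.1, (q.2 : ℤ)) with hφ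
  have hinj : Function.Injective φ := by
    intro q r hqr
    simp only [hφ, Prod.mk.injEq, Nat.cast_inj] at hqr
    exact Prod.ext hqr.1 hqr.2
  set K : ℕ × ℤ → ℝ := fun x => 2 * J (x.1, x.2.toNat) with hK
  have hKφ : ∀ q : ℕ × ℕ, K (φ q) = 2 * J q := by
    intro q
    simp only [hK, hφ, Int.toNat_natCast]
  obtain ⟨n, hn1, hn2, hn3, -⟩ := h X b1 (𝒜.image φ) K (by
      intro α hα
      rw [mem_image] at hα
      obtain ⟨q, hq, rfl⟩ := hα
      obtain ⟨a1, a2, a3, a4, a5, a6⟩ := h𝒜 q hq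
      refine ⟨a1, ?_, ?_⟩
      · show Real.log (q.1 : ℝ) ≤ _
        have h1 : Real.log (q.1 : ℝ) ≤ Real.log (Q ^ (δ / 4)) :=
          Real.log_le_log (by exact_mod_cast a1) a2
        rw [Real.log_rpow hQ0] at h1
        have h2 : (Real.log X) ^ (1 + 1) = Real.log X * Real.log X := by ring
        rw [h2]
        nlinarith
      · rw [hKφ]
        nlinarith) (by
      intro α hα
      rw [mem_image] at hα
      obtain ⟨q, hq, rfl⟩ := hα
      obtain ⟨a1, a2, a3, a4, a5, a6⟩ := h𝒜 q hq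
      refine ⟨?_, ?_, ?_⟩
      · intro p hp hpX hdiv
        have h1 : p ∣ q.2 := Int.natCast_dvd_natCast.1 hdiv
        have h2 := a5 p hp h1
        have h3 : X * 1 ≤ X * X := mul_le_mul_of_nonneg_left hX1 hX0.le
        linarith
      · show ((q.2 : ℕ) : ℤ) ≠ 0
        omega
      · show (Real.log X) ^ 2 * |(((q.2 : ℕ) : ℤ) : ℝ)| ≤ _
        have h1 : |(((q.2 : ℕ) : ℤ) : ℝ)| = (q.2 : ℝ) := by
          rw [Int.cast_natCast, abs_of_nonneg (Nat.cast_nonneg _)]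
        rw [h1]
        refine le_trans ?_ hb4
        gcongr) (by
      rw [sum_image (fun a _ b _ hab => hinj hab), hFX]
      calc ∑ q ∈ 𝒜, K (φ q) * (((φ q).1 : ℝ) / (Nat.totient (φ q).1 : ℝ))
          = 2 * ∑ q ∈ 𝒜, J q * ((q.1 : ℝ) / (Nat.totient q.1 : ℝ)) := by
            rw [mul_sum]
            refine sum_congr rfl fun q _ => ?_
            rw [hKφ]
            simp only [hφ]
            ring
        _ ≤ 2 * (c₁ * δ / 32 * ff Q) := by linarith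
        _ = c₁ * (δ / 16 * ff Q) := by ring
        _ ≤ c₁ * ff X := by gcongr) ∅ (by simp) (by
      rw [sum_empty]
      exact mul_nonneg hc₁.le f2) (z : ℤ)
  have hzn : (z : ℤ) < n := by
    have : ((z : ℤ) : ℝ) < n := by linarith
    exact_mod_cast this
  obtain ⟨b, rfl⟩ : ∃ b : ℕ, n = b := ⟨n.toNat, by omega⟩
  have hbX : (b : ℝ) ≤ z + X := by exact_mod_cast hn2
  have hzb : z < b := by exact_mod_cast hzn
  refine ⟨b, hzb, hbX, fun q hq => ?_⟩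
  obtain ⟨a1, a2, a3, a4, a5, a6⟩ := h𝒜 q hq
  have hsmall : ((q.1 * b : ℕ) : ℝ) < Q ^ δ := by
    push_cast
    have h1 : (b : ℝ) ≤ 2 * X := by linarith
    have h2 : (0 : ℝ) < Q ^ (δ / 4) := by positivity
    calc (q.1 : ℝ) * b ≤ Q ^ (δ / 4) * (2 * X) := mul_le_mul a2 h1 (Nat.cast_nonneg _) h2.le
      _ = (Q ^ (δ / 4) * 2) * X := by ring
      _ < (Q ^ (δ / 4) * Q ^ (δ / 4)) * X := by gcongr
      _ = Q ^ δ := by rw [hXd4, hXd]
  have hpos : 0 < q.1 * b := Nat.mul_pos a1 (by omega)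
  have hcop : Nat.Coprime (q.1 * b) q.2 := by
    by_contra hcon
    rw [Nat.Prime.not_coprime_iff_dvd] at hcon
    obtain ⟨p, hp, hp1, hp2⟩ := hcon
    have h1 := a5 p hp hp2
    have h2 : (p : ℝ) ≤ ((q.1 * b : ℕ) : ℝ) := by exact_mod_cast Nat.le_of_dvd hpos hp1
    linarith
  refine ⟨hcop, fun p hp hdvd => ?_⟩
  by_contra hcon
  push Not at hcon
  have hm : Q ^ δ ≤ (q.2 : ℝ) := by
    obtain ⟨l, hl, hlm⟩ := Nat.exists_prime_and_dvd (show q.2 ≠ 1 by omega)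
    have h1 := a5 l hl hlm
    have h2 : (l : ℝ) ≤ q.2 := by exact_mod_cast Nat.le_of_dvd (by omega) hlm
    linarith
  have hm0 : (0 : ℝ) < q.2 := by
    have : (2 : ℝ) ≤ q.2 := by exact_mod_cast a3
    linarith
  have hab : ((q.1 : ℝ) * b) < q.2 := by
    have := hsmall
    push_cast at this
    linarith
  have hJ1 : 1 ≤ J q := by linarith
  have hp0 : (0 : ℝ) < p := by exact_mod_cast hp.pos
  have hab0 : (0 : ℝ) ≤ (q.1 : ℝ) * b := by positivity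
  have hKq := hKφ q
  have hbound : ∀ j : ℤ, |(j : ℝ)| * q.2 ≤ p + (q.1 : ℝ) * b → |(j : ℝ)| ≤ K (φ q) := by
    intro j hj
    rw [hKq]
    have e1 : 1 * (q.2 : ℝ) ≤ J q * q.2 := mul_le_mul_of_nonneg_right hJ1 hm0.le
    have e2 : (2 * J q) * (q.2 : ℝ) = J q * q.2 + J q * q.2 := by ring
    have h1 : |(j : ℝ)| * q.2 ≤ (2 * J q) * q.2 := by
      rw [e2]
      linarith
    exact le_of_mul_le_mul_right h1 hm0
  have hpZ : Prime (p : ℤ) := Nat.prime_iff_prime_int.1 hp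
  rcases hdvd with ⟨j, hj⟩ | ⟨j, hj⟩
  · have h1 : |(j : ℝ)| * q.2 ≤ p + (q.1 : ℝ) * b := by
      have h2 : (p : ℝ) - (q.1 : ℝ) * b = q.2 * j := by exact_mod_cast hj
      have h3 : |(j : ℝ)| * q.2 = |(p : ℝ) - (q.1 : ℝ) * b| := by
        rw [h2, abs_mul, abs_of_pos hm0]; ring
      rw [h3, abs_le]
      constructor <;> linarith
    refine hn3 (φ q) (mem_image_of_mem φ hq) j (hbound j h1) ?_
    have h4 : ((φ q).1 : ℤ) * (b : ℤ) + j * (φ q).2 = p := by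
      show (q.1 : ℤ) * (b : ℤ) + j * (q.2 : ℤ) = p
      linarith
    rw [h4]
    exact hpZ
  · have h1 : |(((-j : ℤ)) : ℝ)| * q.2 ≤ p + (q.1 : ℝ) * b := by
      have h2 : (p : ℝ) + (q.1 : ℝ) * b = q.2 * j := by exact_mod_cast hj
      have h3 : |(((-j : ℤ)) : ℝ)| * q.2 = |(p : ℝ) + (q.1 : ℝ) * b| := by
        rw [h2, Int.cast_neg, abs_neg, abs_mul, abs_of_pos hm0]; ring
      rw [h3, abs_le]
      constructor <;> linarith
    refine hn3 (φ q) (mem_image_of_mem φ hq) (-j) (hbound (-j) h1) ?_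
    have h4 : ((φ q).1 : ℤ) * (b : ℤ) + (-j) * (φ q).2 = -(p : ℤ) := by
      show (q.1 : ℤ) * (b : ℤ) + (-j) * (q.2 : ℤ) = -(p : ℤ)
      linarith
    rw [h4]
    exact hpZ.neg

end Pool.Agent.Helper736_LP
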